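import Pool.Agent.Y501.SY.StmR

set_option autoImplicit false

open Set Filter Topology MeasureTheory
open scoped ContDiff

noncomputable section

namespace Pool.Agent.Y431.SY

open Pool.Agent.Y501.SY ContinuousAlternatingMap

/-! ## Parametric integrals over compact sets -/

section gen

variable {Y : Type} [NormedAddCommGroup Y] [NormedSpace ℝ Y] [MeasurableSpace Y] [BorelSpace Y]
  [SecondCountableTopology Y] (μ : Measure Y) [IsLocallyFiniteMeasure μ] {K : Set Y}

theorem fderiv_slice {X F : Type} [NormedAddCommGroup X] [NormedSpace ℝ X]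
    [NormedAddCommGroup F] [NormedSpace ℝ F] {R : X × Y → F} (hR : ContDiff ℝ ∞ R) (x : X) (y : Y) :
    HasFDerivAt (fun x' => R (x', y))
      ((fderiv ℝ R (x, y)).comp (ContinuousLinearMap.inl ℝ X Y)) x := by
  have h1 : HasFDerivAt R (fderiv ℝ R (x, y)) (x, y) :=
    ((hR.differentiable (by simp)) (x, y)).hasFDerivAt
  exact h1.comp x (hasFDerivAt_prodMk_left x y)

theorem slice_contDiff {X F : Type} [NormedAddCommGroup X] [NormedSpace ℝ X]
    [NormedAddCommGroup F] [NormedSpace ℝ F] {R : X × Y → F} (hR : ContDiff ℝ ∞ R) :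
    ContDiff ℝ ∞ (fun p : X × Y => (fderiv ℝ R (p.1, p.2)).comp
      (ContinuousLinearMap.inl ℝ X Y)) := by
  have h1 : ContDiff ℝ ∞ (fderiv ℝ R) := hR.fderiv_right (m := ∞) (by simp)
  exact h1.clm_comp contDiff_const

theorem setInt_hasFDerivAt' (hK : IsCompact K) {X F : Type} [NormedAddCommGroup X]
    [NormedSpace ℝ X] [ProperSpace X] [NormedAddCommGroup F] [NormedSpace ℝ F] [CompleteSpace F]
    {R : X × Y → F} (hR : ContDiff ℝ ∞ R) (x₀ : X) :
    HasFDerivAt (fun x => ∫ y in K, R (x, y) ∂μ)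
      (∫ y in K, (fderiv ℝ R (x₀, y)).comp (ContinuousLinearMap.inl ℝ X Y) ∂μ) x₀ := by
  have hcF : Continuous (fun p : X × Y => (fderiv ℝ R (p.1, p.2)).comp
      (ContinuousLinearMap.inl ℝ X Y)) := (slice_contDiff hR).continuous
  obtain ⟨C, hC⟩ := ((isCompact_closedBall x₀ 1).prod hK).exists_bound_of_continuousOn
    hcF.continuousOn
  refine hasFDerivAt_integral_of_dominated_of_fderiv_le (μ := μ.restrict K)
    (F := fun x y => R (x, y))
    (F' := fun x y => (fderiv ℝ R (x, y)).comp (ContinuousLinearMap.inl ℝ X Y))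
    (bound := fun _ => C) (Metric.closedBall_mem_nhds x₀ one_pos) ?_ ?_ ?_ ?_ ?_ ?_
  · refine Filter.Eventually.of_forall fun x => ?_
    exact (hR.continuous.comp (Continuous.prodMk_right x)).aestronglyMeasurable
  · exact (hR.continuous.comp (Continuous.prodMk_right x₀)).continuousOn.integrableOn_compact hK
  · exact (hcF.comp (Continuous.prodMk_right x₀)).aestronglyMeasurable
  · refine (ae_restrict_iff' hK.measurableSet).mpr (Filter.Eventually.of_forall ?_)
    exact fun y hy x hx => hC (x, y) ⟨hx, hy⟩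
  · exact integrableOn_const hK.measure_lt_top.ne
  · refine Filter.Eventually.of_forall fun y x _ => fderiv_slice hR x y

theorem contDiff_setInt_nat (hK : IsCompact K) (n : ℕ) : ∀ (X F : Type) [NormedAddCommGroup X]
    [NormedSpace ℝ X] [ProperSpace X] [NormedAddCommGroup F] [NormedSpace ℝ F] [CompleteSpace F]
    (R : X × Y → F), ContDiff ℝ ∞ R → ContDiff ℝ n (fun x : X => ∫ y in K, R (x, y) ∂μ) := by
  induction n with
  | zero =>
    intro X F _ _ _ _ _ _ R hR
    have : ((0 : ℕ) : WithTop ℕ∞) = 0 := rfl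
    rw [this, contDiff_zero]
    exact continuous_parametric_integral_of_continuous (f := fun x y => R (x, y)) hR.continuous hK
  | succ n ih =>
    intro X F _ _ _ _ _ _ R hR
    have : (((n + 1 : ℕ) : ℕ) : WithTop ℕ∞) = (n : WithTop ℕ∞) + 1 := by norm_num
    rw [this, contDiff_succ_iff_fderiv]
    refine ⟨fun x => (setInt_hasFDerivAt' μ hK hR x).differentiableAt, by simp, ?_⟩
    have e : fderiv ℝ (fun x : X => ∫ y in K, R (x, y) ∂μ) = fun x =>
        ∫ y in K, (fderiv ℝ R (x, y)).comp (ContinuousLinearMap.inl ℝ X Y) ∂μ := by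
      funext x
      exact (setInt_hasFDerivAt' μ hK hR x).fderiv
    rw [e]
    exact ih X (X →L[ℝ] F) _ (slice_contDiff hR)

theorem contDiff_setInt (hK : IsCompact K) {X F : Type} [NormedAddCommGroup X]
    [NormedSpace ℝ X] [ProperSpace X] [NormedAddCommGroup F] [NormedSpace ℝ F] [CompleteSpace F]
    {R : X × Y → F} (hR : ContDiff ℝ ∞ R) : ContDiff ℝ ∞ (fun x : X => ∫ y in K, R (x, y) ∂μ) := by
  rw [contDiff_infty]
  exact fun n => contDiff_setInt_nat μ hK n X F R hR

end gen

/-! ## The contraction -/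

section contr

variable {E : Type} [NormedAddCommGroup E] [NormedSpace ℝ E]

/-- evaluation -/
def ev {n : ℕ} (W : Fin n → E) : (E [⋀^Fin n]→L[ℝ] ℝ) →L[ℝ] ℝ :=
  LinearMap.mkContinuous
    { toFun := fun f => f W
      map_add' := fun _ _ => rfl
      map_smul' := fun _ _ => rfl } (∏ i, ‖W i‖) (fun f => by
        rw [mul_comm]; exact f.le_opNorm W)

theorem ev_apply {n : ℕ} (W : Fin n → E) (f : E [⋀^Fin n]→L[ℝ] ℝ) : ev W f = f W := rfl

theorem curry_bound (f : E [⋀^Fin 2]→L[ℝ] ℝ) (y : E) : ‖f.curryLeft y‖ ≤ ‖f‖ * ‖y‖ := by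
  refine (f.curryLeft y).opNorm_le_bound (by positivity) fun m => ?_
  rw [curryLeft_apply_apply]
  refine (f.le_opNorm _).trans ?_
  rw [Fin.prod_univ_two, Fin.prod_univ_one]
  simp only [Matrix.cons_val_zero, Matrix.cons_val_one]
  rw [mul_assoc]

theorem curry_bb : IsBoundedBilinearMap ℝ
    (fun p : (E [⋀^Fin 2]→L[ℝ] ℝ) × E => p.1.curryLeft p.2) where
  add_left := fun _ _ _ => rfl
  smul_left := fun _ _ _ => rfl
  add_right := fun f x y => f.curryLeft.map_add x y
  smul_right := fun c f y => f.curryLeft.map_smul c y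
  bound := ⟨1, one_pos, fun f y => by rw [one_mul]; exact curry_bound f y⟩

theorem curry_smooth {X : Type} [NormedAddCommGroup X] [NormedSpace ℝ X]
    {f : X → E [⋀^Fin 2]→L[ℝ] ℝ} {g : X → E} (hf : ContDiff ℝ ∞ f)
    (hg : ContDiff ℝ ∞ g) : ContDiff ℝ ∞ (fun x => (f x).curryLeft (g x)) := by
  have h := (curry_bb (E := E)).contDiff (n := ∞)
  exact ContDiff.comp (g := fun p : (E [⋀^Fin 2]→L[ℝ] ℝ) × E => p.1.curryLeft p.2)
    (f := fun x => (f x, g x)) h (hf.prodMk hg)

/-- the algebraic identity behind the formula of Cartan -/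
theorem closed_identity (T : E →L[ℝ] E [⋀^Fin 2]→L[ℝ] ℝ) (h0 : alternatizeUncurryFin T = 0)
    (y : E) (v : Fin 2 → E) :
    T (v 0) (Matrix.vecCons y ![v 1]) - T (v 1) (Matrix.vecCons y ![v 0]) = T y v := by
  have h3 : alternatizeUncurryFin T (Matrix.vecCons y v) = 0 := by rw [h0]; rfl
  rw [alternatizeUncurryFin_apply, Fin.sum_univ_three] at h3
  have e0 : Fin.removeNth 0 (Matrix.vecCons y v) = v := by
    funext i; fin_cases i <;> rfl
  have e1 : Fin.removeNth 1 (Matrix.vecCons y v) = Matrix.vecCons y ![v 1] := by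
    funext i; fin_cases i <;> rfl
  have e2 : Fin.removeNth 2 (Matrix.vecCons y v) = Matrix.vecCons y ![v 0] := by
    funext i; fin_cases i <;> rfl
  rw [e0, e1, e2] at h3
  have h4 : (-1 : ℤ) ^ 0 • T y v + (-1 : ℤ) ^ 1 • T (v 0) (Matrix.vecCons y ![v 1]) +
    (-1 : ℤ) ^ 2 • T (v 1) (Matrix.vecCons y ![v 0]) = 0 := h3
  simp only [pow_zero, one_smul, pow_one, neg_smul, even_two, Even.neg_pow, one_pow] at h4
  linarith

variable [FiniteDimensional ℝ E] [MeasurableSpace E] [BorelSpace E] (μ : Measure E)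
  [IsLocallyFiniteMeasure μ]

/-- inner integral -/
def G (s : E → E [⋀^Fin 2]→L[ℝ] ℝ) (q : E × E) : E [⋀^Fin 1]→L[ℝ] ℝ :=
  ∫ t in Icc (0 : ℝ) 1, (s (q.1 + t • q.2)).curryLeft q.2

/-- outer integral -/
def H (K : Set E) (ρ : E → ℝ) (s : E → E [⋀^Fin 2]→L[ℝ] ℝ) (p : E) : E [⋀^Fin 1]→L[ℝ] ℝ :=
  ∫ y in K, ρ y • G s (p, y) ∂μ

theorem R_smooth {s : E → E [⋀^Fin 2]→L[ℝ] ℝ} (hs : ContDiff ℝ ∞ s) :
    ContDiff ℝ ∞ (fun z : (E × E) × ℝ => (s (z.1.1 + z.2 • z.1.2)).curryLeft z.1.2) := by
  apply curry_smooth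
  · exact hs.comp (by fun_prop)
  · fun_prop

theorem G_smooth {s : E → E [⋀^Fin 2]→L[ℝ] ℝ} (hs : ContDiff ℝ ∞ s) : ContDiff ℝ ∞ (G s) := by
  have : ProperSpace E := FiniteDimensional.proper_real E
  exact contDiff_setInt volume isCompact_Icc (R_smooth hs)

theorem H_smooth {K : Set E} (hK : IsCompact K) {ρ : E → ℝ} (hρ : ContDiff ℝ ∞ ρ)
    {s : E → E [⋀^Fin 2]→L[ℝ] ℝ} (hs : ContDiff ℝ ∞ s) : ContDiff ℝ ∞ (H μ K ρ s) := by
  have : ProperSpace E := FiniteDimensional.proper_real E
  have h : ContDiff ℝ ∞ (fun q : E × E => ρ q.2 • G s q) :=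
    (hρ.comp contDiff_snd).smul (G_smooth hs)
  exact contDiff_setInt μ hK (R := fun q : E × E => ρ q.2 • G s q) h

theorem G_apply {s : E → E [⋀^Fin 2]→L[ℝ] ℝ} (hs : ContDiff ℝ ∞ s) (q : E × E) (w : Fin 1 → E) :
    G s q w = ∫ t in Icc (0 : ℝ) 1, s (q.1 + t • q.2) (Matrix.vecCons q.2 w) := by
  have h := (ev w).integral_comp_comm (μ := volume.restrict (Icc (0 : ℝ) 1))
    (φ := fun t => (s (q.1 + t • q.2)).curryLeft q.2)
    (((R_smooth hs).continuous.comp (Continuous.prodMk_right q)).continuousOn.integrableOn_compact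
      isCompact_Icc)
  exact h.symm

theorem H_apply {K : Set E} (hK : IsCompact K) {ρ : E → ℝ} (hρ : ContDiff ℝ ∞ ρ)
    {s : E → E [⋀^Fin 2]→L[ℝ] ℝ} (hs : ContDiff ℝ ∞ s) (p : E) (w : Fin 1 → E) :
    H μ K ρ s p w = ∫ y in K, ρ y * G s (p, y) w ∂μ := by
  have h := (ev w).integral_comp_comm (μ := μ.restrict K) (φ := fun y => ρ y • G s (p, y))
    ((hρ.continuous.smul ((G_smooth hs).continuous.comp
      (Continuous.prodMk_right p))).continuousOn.integrableOn_compact hK)
  exact h.symm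

theorem fderiv_G {s : E → E [⋀^Fin 2]→L[ℝ] ℝ} (hs : ContDiff ℝ ∞ s) (p y : E) (w : Fin 1 → E)
    (u : E) : fderiv ℝ (fun x => G s (x, y) w) p u =
      ∫ t in Icc (0 : ℝ) 1, fderiv ℝ s (p + t • y) u (Matrix.vecCons y w) := by
  have : ProperSpace E := FiniteDimensional.proper_real E
  have hR : ContDiff ℝ ∞ (fun z : E × ℝ => s (z.1 + z.2 • y) (Matrix.vecCons y w)) :=
    (ev (Matrix.vecCons y w)).contDiff.comp (hs.comp (by fun_prop))
  have h1 := setInt_hasFDerivAt' volume isCompact_Icc (K := Icc (0 : ℝ) 1) hR p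
  have e : (fun x => G s (x, y) w) = fun x => ∫ t in Icc (0 : ℝ) 1,
      s (x + t • y) (Matrix.vecCons y w) := by
    funext x; exact G_apply hs (x, y) w
  rw [e, h1.fderiv, ContinuousLinearMap.integral_apply]
  · refine integral_congr_ae (Filter.Eventually.of_forall fun t => ?_)
    show ((fderiv ℝ _ (p, t)).comp (ContinuousLinearMap.inl ℝ E ℝ)) u = _
    rw [← (fderiv_slice hR p t).fderiv]
    have hd : DifferentiableAt ℝ (fun x => s (x + t • y)) p :=
      (hs.differentiable (by simp) _).comp p (differentiableAt_id.add_const _)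
    have h2 := fderiv_continuousAlternatingMap_apply_const_apply hd (Matrix.vecCons y w) u
    rw [h2, fderiv_comp_add_right]
  · exact ((slice_contDiff hR).continuous.comp
      (Continuous.prodMk_right p)).continuousOn.integrableOn_compact isCompact_Icc

theorem fderiv_H {K : Set E} (hK : IsCompact K) {ρ : E → ℝ} (hρ : ContDiff ℝ ∞ ρ)
    {s : E → E [⋀^Fin 2]→L[ℝ] ℝ} (hs : ContDiff ℝ ∞ s) (p : E) (w : Fin 1 → E) (u : E) :
    fderiv ℝ (fun x => H μ K ρ s x w) p u =
      ∫ y in K, ρ y * (∫ t in Icc (0 : ℝ) 1, fderiv ℝ s (p + t • y) u (Matrix.vecCons y w)) ∂μ := by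
  have : ProperSpace E := FiniteDimensional.proper_real E
  have hGw : ContDiff ℝ ∞ (fun z : E × E => G s z w) := (ev w).contDiff.comp (G_smooth hs)
  have hR : ContDiff ℝ ∞ (fun z : E × E => ρ z.2 * G s z w) := (hρ.comp contDiff_snd).mul hGw
  have h1 := setInt_hasFDerivAt' μ hK hR p
  have e : (fun x => H μ K ρ s x w) = fun x => ∫ y in K, ρ y * G s (x, y) w ∂μ := by
    funext x; exact H_apply μ hK hρ hs x w
  rw [e, h1.fderiv, ContinuousLinearMap.integral_apply]
  · refine integral_congr_ae (Filter.Eventually.of_forall fun y => ?_)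
    show ((fderiv ℝ _ (p, y)).comp (ContinuousLinearMap.inl ℝ E E)) u = _
    rw [← (fderiv_slice hR p y).fderiv]
    have hd : DifferentiableAt ℝ (fun x => G s (x, y) w) p :=
      (hGw.differentiable (by simp) _).comp p (differentiableAt_id.prodMk (differentiableAt_const _))
    have h2 : fderiv ℝ (fun x => ρ y * G s (x, y) w) p = ρ y • fderiv ℝ (fun x => G s (x, y) w) p :=
      fderiv_const_mul hd _
    rw [h2]
    show ρ y * (fderiv ℝ (fun x => G s (x, y) w) p u) = _
    rw [fderiv_G hs p y w u]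
  · exact ((slice_contDiff hR).continuous.comp
      (Continuous.prodMk_right p)).continuousOn.integrableOn_compact hK

/-- the homotopy formula -/
theorem ext_H {K : Set E} (hK : IsCompact K) {ρ : E → ℝ} (hρ : ContDiff ℝ ∞ ρ)
    {s : E → E [⋀^Fin 2]→L[ℝ] ℝ} (hs : ContDiff ℝ ∞ s) (p : E)
    (hcl : ∀ y, ρ y ≠ 0 → ∀ t ∈ Icc (0 : ℝ) 1, extDeriv s (p + t • y) = 0) (v : Fin 2 → E) :
    extDeriv (H μ K ρ s) p v = ∫ y in K, ρ y * (s (p + y) v - s p v) ∂μ := by
  rw [extDeriv_apply ((H_smooth μ hK hρ hs).differentiable (by simp) p), Fin.sum_univ_two]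
  have e0 : Fin.removeNth 0 v = ![v 1] := by
    funext i; fin_cases i; rfl
  have e1 : Fin.removeNth 1 v = ![v 0] := by
    funext i; fin_cases i; rfl
  rw [e0, e1, fderiv_H μ hK hρ hs, fderiv_H μ hK hρ hs]
  have hc : ∀ (u W0 : E), Continuous (fun z : E × ℝ =>
      fderiv ℝ s (p + z.2 • z.1) u (Matrix.vecCons z.1 ![W0])) := by
    intro u W0
    have h1 : ContDiff ℝ ∞ (fun z : E × ℝ => fderiv ℝ s (p + z.2 • z.1) u) := by
      have h2 : ContDiff ℝ ∞ (fderiv ℝ s) := hs.fderiv_right (m := ∞) (by simp)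
      exact (h2.comp (by fun_prop)).clm_apply contDiff_const
    have h3 := curry_smooth h1 (contDiff_fst (𝕜 := ℝ) (E := E) (F := ℝ))
    exact ((ev ![W0]).contDiff.comp h3).continuous
  have hc2 : ∀ (u W0 : E), Continuous (fun y : E => ρ y * ∫ t in Icc (0 : ℝ) 1,
      fderiv ℝ s (p + t • y) u (Matrix.vecCons y ![W0])) := by
    intro u W0
    have : ProperSpace E := FiniteDimensional.proper_real E
    refine hρ.continuous.mul ?_
    exact continuous_parametric_integral_of_continuous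
      (f := fun y t => fderiv ℝ s (p + t • y) u (Matrix.vecCons y ![W0])) (hc u W0) isCompact_Icc
  simp only [Fin.val_zero, pow_zero, one_smul, Fin.val_one, pow_one, neg_smul]
  rw [← sub_eq_add_neg, ← integral_sub
    ((hc2 (v 0) (v 1)).continuousOn.integrableOn_compact hK)
    ((hc2 (v 1) (v 0)).continuousOn.integrableOn_compact hK)]
  refine integral_congr_ae (Filter.Eventually.of_forall fun y => ?_)
  show ρ y * _ - ρ y * _ = _
  rw [← mul_sub]
  by_cases hy : ρ y = 0
  · simp [hy]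
  congr 1
  have i1 : IntegrableOn (fun t : ℝ => fderiv ℝ s (p + t • y) (v 0) (Matrix.vecCons y ![v 1]))
      (Icc 0 1) := ((hc (v 0) (v 1)).comp
        (Continuous.prodMk_right y)).continuousOn.integrableOn_compact isCompact_Icc
  have i2 : IntegrableOn (fun t : ℝ => fderiv ℝ s (p + t • y) (v 1) (Matrix.vecCons y ![v 0]))
      (Icc 0 1) := ((hc (v 1) (v 0)).comp
        (Continuous.prodMk_right y)).continuousOn.integrableOn_compact isCompact_Icc
  rw [← integral_sub i1 i2]
  have h5 : ∫ t in Icc (0 : ℝ) 1, (fderiv ℝ s (p + t • y) (v 0) (Matrix.vecCons y ![v 1]) -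
      fderiv ℝ s (p + t • y) (v 1) (Matrix.vecCons y ![v 0])) =
      ∫ t in Icc (0 : ℝ) 1, fderiv ℝ s (p + t • y) y v := by
    refine setIntegral_congr_fun measurableSet_Icc fun t ht => ?_
    exact closed_identity _ (hcl y hy t ht) y v
  rw [h5, integral_Icc_eq_integral_Ioc, ← intervalIntegral.integral_of_le zero_le_one]
  have h6 : ∀ t : ℝ, HasDerivAt (fun t : ℝ => s (p + t • y) v) (fderiv ℝ s (p + t • y) y v) t := by
    intro t
    have h7 : HasFDerivAt s (fderiv ℝ s (p + t • y)) (p + t • y) :=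
      ((hs.differentiable (by simp)) _).hasFDerivAt
    have h8 : HasDerivAt (fun t : ℝ => p + t • y) y t := by
      simpa using ((hasDerivAt_id t).smul_const y).const_add p
    have h9 := h7.comp_hasDerivAt t h8
    exact (ev v).hasFDerivAt.comp_hasDerivAt t h9
  have h10 : Continuous fun t : ℝ => fderiv ℝ s (p + t • y) y v := by
    have h2 : ContDiff ℝ ∞ (fderiv ℝ s) := hs.fderiv_right (m := ∞) (by simp)
    have h3 : ContDiff ℝ ∞ (fun t : ℝ => fderiv ℝ s (p + t • y) y) :=
      (h2.comp (by fun_prop)).clm_apply contDiff_const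
    exact ((ev v).contDiff.comp h3).continuous
  rw [intervalIntegral.integral_eq_sub_of_hasDerivAt (fun t _ => h6 t)
    (h10.intervalIntegrable _ _)]
  simp

/-- cut-off -/
theorem exists_ext {F : Type} [NormedAddCommGroup F] [NormedSpace ℝ F] {P : Set E} {s : E → F}
    {ε : ℝ} (hP : IsOpen P) (hs : ContDiffOn ℝ ∞ s P) (hε : 0 < ε) {p₀ : E}
    (hp₀ : Metric.closedBall p₀ ε ⊆ P) :
    ∃ (r : ℝ) (s' : E → F), 0 < r ∧ ContDiff ℝ ∞ s' ∧ Metric.ball p₀ (ε + r) ⊆ P ∧
      ∀ q ∈ Metric.ball p₀ (ε + r), s' q = s q := by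
  have : ProperSpace E := FiniteDimensional.proper_real E
  obtain ⟨δ, hδ, hsub⟩ := (isCompact_closedBall p₀ ε).exists_cthickening_subset_open hP hp₀
  rw [cthickening_closedBall hδ.le hε.le] at hsub
  let f : ContDiffBump p₀ := ⟨ε + δ / 2, ε + δ, by positivity, by linarith⟩
  refine ⟨δ / 2, fun q => f q • s q, by positivity, ?_, ?_, ?_⟩
  · rw [contDiff_iff_contDiffAt]
    intro x
    by_cases hx : x ∈ P
    · exact f.contDiff.contDiffAt.smul (hs.contDiffAt (hP.mem_nhds hx))
    · have h1 : x ∉ tsupport f := by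
        rw [f.tsupport_eq]
        intro h2
        exact hx (hsub (by rw [add_comm]; exact h2))
      have h2 := notMem_tsupport_iff_eventuallyEq.mp h1
      refine (contDiffAt_const (c := (0 : F))).congr_of_eventuallyEq ?_
      filter_upwards [h2] with q hq
      rw [hq]; simp
  · intro q hq
    apply hsub
    rw [Metric.mem_ball] at hq
    rw [Metric.mem_closedBall]
    linarith
  · intro q hq
    have h1 : f q = 1 := f.one_of_mem_closedBall (by
      rw [Metric.mem_closedBall]
      exact (Metric.mem_ball.mp hq).le)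
    show f q • s q = s q
    rw [h1, one_smul]

end contr

/-! ## Assembly -/

theorem near {d : ℕ} {ε r : ℝ} {p₀ p y : E d} {t : ℝ} (hp : p ∈ Metric.ball p₀ r) (hy : ‖y‖ < ε)
    (ht : t ∈ Icc (0 : ℝ) 1) : p + t • y ∈ Metric.ball p₀ (ε + r) := by
  rw [Metric.mem_ball, dist_eq_norm] at hp ⊢
  have h1 : ‖t • y‖ < ε := by
    rw [norm_smul, Real.norm_eq_abs, abs_of_nonneg ht.1]
    nlinarith [norm_nonneg y, ht.2]
  calc ‖p + t • y - p₀‖ = ‖(p - p₀) + t • y‖ := by congr 1; abel
    _ ≤ ‖p - p₀‖ + ‖t • y‖ := norm_add_le _ _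
    _ < ε + r := by linarith

theorem t_HT : S_HT := by
  intro d P O s ε B ρ hP hO hs hcl hB hε hρ hsub
  have hρy : ∀ y, ρ y ≠ 0 → ‖y‖ < ε := fun y hy => by
    by_contra h
    exact hy (hρ.supp y (not_lt.mp h))
  have hρi : Integrable ρ := integrable_of_integral_eq_one hρ.int
  have hK : IsCompact (Metric.closedBall (0 : E d) ε) := isCompact_closedBall 0 ε
  have hρK : ∀ y, y ∉ Metric.closedBall (0 : E d) ε → ρ y = 0 := fun y hy => by
    apply hρ.supp
    rw [mem_closedBall_zero_iff, not_le] at hy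
    exact hy.le
  have key : ∀ p₀ ∈ O, ∃ s' : E d → (E d) [⋀^Fin 2]→L[ℝ] ℝ, ContDiff ℝ ∞ s' ∧
      hA ρ s =ᶠ[𝓝 p₀] H volume (Metric.closedBall 0 ε) ρ s' ∧
      (∀ y, ρ y ≠ 0 → s' (p₀ + y) = s (p₀ + y)) ∧ s' p₀ = s p₀ ∧
      (∀ y, ρ y ≠ 0 → ∀ t ∈ Icc (0 : ℝ) 1, extDeriv s' (p₀ + t • y) = 0) := by
    intro p₀ hp₀
    obtain ⟨r, s', hr, hs', hball, heq⟩ := exists_ext hP hs hε (hsub p₀ hp₀)
    have hp₀r : p₀ ∈ Metric.ball p₀ r := Metric.mem_ball_self hr
    refine ⟨s', hs', ?_, ?_, ?_, ?_⟩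
    · filter_upwards [Metric.ball_mem_nhds p₀ hr] with p hp
      rw [H, setIntegral_eq_integral_of_forall_compl_eq_zero (fun y hy => by
        rw [hρK y hy, zero_smul])]
      refine integral_congr_ae (Filter.Eventually.of_forall fun y => ?_)
      show ρ y • _ = ρ y • _
      by_cases hy : ρ y = 0
      · rw [hy, zero_smul, zero_smul]
      · congr 1
        rw [G, intervalIntegral.integral_of_le zero_le_one, integral_Icc_eq_integral_Ioc]
        refine setIntegral_congr_fun measurableSet_Ioc fun t ht => ?_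
        show (s (p + t • y)).curryLeft y = (s' (p + t • y)).curryLeft y
        rw [heq _ (near hp (hρy y hy) ⟨ht.1.le, ht.2⟩)]
    · intro y hy
      have h1 := near (p := p₀) hp₀r (hρy y hy) (t := 1) ⟨zero_le_one, le_refl _⟩
      rw [one_smul] at h1
      exact heq _ h1
    · exact heq _ (Metric.mem_ball_self (by linarith))
    · intro y hy t ht
      have h1 := near (p := p₀) hp₀r (hρy y hy) ht
      have h2 : s' =ᶠ[𝓝 (p₀ + t • y)] s := by
        filter_upwards [Metric.isOpen_ball.mem_nhds h1] with q hq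
        exact heq q hq
      have h3 : extDeriv s' (p₀ + t • y) = extDeriv s (p₀ + t • y) := by
        unfold extDeriv
        rw [h2.fderiv_eq]
      rw [h3]
      exact hcl _ (hball h1)
  refine ⟨?_, ?_, ?_⟩
  · intro p₀ hp₀
    obtain ⟨s', hs', heq, _⟩ := key p₀ hp₀
    exact ((H_smooth volume hK hρ.smooth hs').contDiffAt.congr_of_eventuallyEq
      heq).contDiffWithinAt
  · intro p₀ hp₀
    obtain ⟨s', hs', heq, h1, h2, h3⟩ := key p₀ hp₀
    have h4 : extDeriv (hA ρ s) p₀ = extDeriv (H volume (Metric.closedBall 0 ε) ρ s') p₀ := by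
      unfold extDeriv
      rw [heq.fderiv_eq]
    rw [h4]
    ext v
    rw [ext_H volume hK hρ.smooth hs' p₀ h3 v]
    have h5 : mol ρ s p₀ = ∫ y in Metric.closedBall 0 ε, ρ y • s' (p₀ + y) := by
      rw [setIntegral_eq_integral_of_forall_compl_eq_zero (fun y hy => by
        rw [hρK y hy, zero_smul])]
      refine integral_congr_ae (Filter.Eventually.of_forall fun y => ?_)
      show ρ y • _ = ρ y • _
      by_cases hy : ρ y = 0
      · rw [hy, zero_smul, zero_smul]
      · rw [h1 y hy]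
    have hc1 : Continuous fun y => ρ y • s' (p₀ + y) :=
      hρ.smooth.continuous.smul (hs'.continuous.comp (by fun_prop))
    have h6 := (ev v).integral_comp_comm (μ := volume.restrict (Metric.closedBall 0 ε))
      (φ := fun y => ρ y • s' (p₀ + y)) (hc1.continuousOn.integrableOn_compact hK)
    show _ = mol ρ s p₀ v - s p₀ v
    have h7 : mol ρ s p₀ v = ∫ y in Metric.closedBall 0 ε, ρ y * s' (p₀ + y) v := by
      rw [h5]; exact h6.symm
    have h8 : ∫ y in Metric.closedBall (0 : E d) ε, ρ y = 1 := by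
      rw [setIntegral_eq_integral_of_forall_compl_eq_zero hρK, hρ.int]
    have hc2 : Continuous fun y => ρ y * s' (p₀ + y) v :=
      hρ.smooth.continuous.mul (((ev v).continuous).comp (hs'.continuous.comp (by fun_prop)))
    rw [h7, ← h2]
    have h9 : ∫ y in Metric.closedBall (0 : E d) ε, ρ y * (s' (p₀ + y) v - s' p₀ v) =
        (∫ y in Metric.closedBall (0 : E d) ε, ρ y * s' (p₀ + y) v) -
        ∫ y in Metric.closedBall (0 : E d) ε, ρ y * s' p₀ v := by
      rw [← integral_sub (hc2.continuousOn.integrableOn_compact hK)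
        ((hρi.mul_const _).integrableOn)]
      refine integral_congr_ae (Filter.Eventually.of_forall fun y => ?_)
      show ρ y * (s' (p₀ + y) v - s' p₀ v) = ρ y * s' (p₀ + y) v - ρ y * s' p₀ v
      ring
    rw [h9, integral_mul_const, h8, one_mul]
  · intro p hp
    have hBε : ∀ y, ‖ρ y • ∫ t in (0 : ℝ)..1, (s (p + t • y)).curryLeft y‖ ≤ ρ y * (ε * B) := by
      intro y
      by_cases hy : ρ y = 0
      · rw [hy]; simp
      · rw [norm_smul, Real.norm_eq_abs, abs_of_nonneg (hρ.nonneg y)]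
        refine mul_le_mul_of_nonneg_left ?_ (hρ.nonneg y)
        have hb : ∀ t ∈ Set.uIoc (0 : ℝ) 1, ‖(s (p + t • y)).curryLeft y‖ ≤ ε * B := by
          intro t ht
          rw [Set.uIoc_of_le zero_le_one] at ht
          have hq : p + t • y ∈ P := by
            apply hsub p hp
            rw [Metric.mem_closedBall, dist_eq_norm, add_sub_cancel_left, norm_smul,
              Real.norm_eq_abs, abs_of_nonneg ht.1.le]
            nlinarith [norm_nonneg y, ht.2, hρy y hy, ht.1]
          refine (curry_bound _ _).trans ?_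
          have h1 := hB _ hq
          have h2 := hρy y hy
          have h3 := norm_nonneg (s (p + t • y))
          nlinarith [norm_nonneg y]
        have := intervalIntegral.norm_integral_le_of_norm_le_const hb
        simpa using this
    have h1 : ‖hA ρ s p‖ ≤ ∫ y, ρ y * (ε * B) :=
      norm_integral_le_of_norm_le (hρi.mul_const _) (Filter.Eventually.of_forall hBε)
    rw [integral_mul_const, hρ.int, one_mul] at h1
    exact h1

end Pool.Agent.Y431.SY
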